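import Pool.Agent.T9h95.NK.Ll2

/-!
# Project NK: extension of chains, `PT j` implies `PT i` for `i ≤ j`
-/

set_option autoImplicit false

open Set
open scoped RealInnerProductSpace

namespace Pool.Agent.T9h95.NK

open Pool.Agent.T9h98.DC
open Pool.Agent.T9h44.NK

/-- the first faces of a chain -/
def trunc {d m j : ℕ} {P : Set (E d)} (Φ : Ch P m) (h : j ≤ m) : Ch P j where
  face l := Φ.face (Fin.castLE h l)
  isFace l := Φ.isFace _
  dim l := by
    have h1 := Φ.dim (Fin.castLE h l)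
    rw [Fin.val_castLE] at h1
    exact h1
  mono a b hab := Φ.mono (by
    rw [Fin.le_def, Fin.val_castLE, Fin.val_castLE]
    exact hab)

theorem ex_ne {d : ℕ} {P : Set (E (d + 1))} (hP : IsPolytope P) (v : E (d + 1)) : ∃ y ∈ P, y ≠ v := by
  by_contra hcon
  push Not at hcon
  have h1 : P ⊆ {v} := fun y hy => hcon y hy
  obtain ⟨x, hx⟩ := hP.2
  have h4 := interior_mono h1 hx
  rw [interior_singleton] at h4
  exact h4

theorem chext (hF : S_FACES) (hV : S_VF) (hN : S_INV) (hI : S_IOTA) (hSH : S_SH) (hE : S_EXT) :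
    ∀ (i d : ℕ) (P : Set (E (d + 1))) (j : ℕ), IsPolytope P → ∀ (h : i ≤ j), j ≤ d + 1 →
      ∀ Φ : Ch P i, ∃ Φ' : Ch P j, ∀ l : Fin i, Φ'.face (Fin.castLE h l) = Φ.face l := by
  intro i
  induction i with
  | zero =>
    intro d P j hP _ hj Φ
    have hne : P.Nonempty := hP.2.mono interior_subset
    obtain ⟨-, v, hv⟩ := (hF _ P hP.1).2.2.2.2.1 hne
    obtain ⟨Ψ, -⟩ := hE d P v hP hv
    exact ⟨trunc Ψ hj, fun l => l.elim0⟩
  | succ i ih =>
    intro d P j hP h hj Φ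
    obtain ⟨j, rfl⟩ : ∃ j', j = j' + 1 := ⟨j - 1, by omega⟩
    by_cases hij : i = j
    · subst hij
      exact ⟨Φ, fun l => by congr⟩
    · obtain ⟨d, rfl⟩ : ∃ d', d = d' + 1 := ⟨d - 1, by omega⟩
      obtain ⟨v, hv0⟩ := (hF _ P hP.1).2.2.2.2.2.2.1 (Φ.face 0) (Φ.isFace 0) (by
        have := Φ.dim 0
        simpa using this)
      have hv : Vx P v := by
        unfold Vx
        rw [← hv0]
        exact Φ.isFace 0
      obtain ⟨n, hn, hs, -⟩ := hN _ P v ⊥ hP.1 hv (ex_ne hP v) (by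
        intro g hg
        rw [Subgroup.mem_bot] at hg
        rw [hg]
        exact image_id P)
      obtain ⟨ι, hι, -⟩ := hI _ n hn
      obtain ⟨hV1, -, -, hV4⟩ := hV _ P v n ι hP hv hs hn hι
      obtain ⟨Ψ, hΨ⟩ := (hSH _ P v n ι hP hv hs hn hι i).2 Φ hv0
      obtain ⟨Ψ', hΨ'⟩ := ih d (fig v n ι P) j hV1 (by omega) (by omega) Ψ
      obtain ⟨Φ', h0, hΦ'⟩ := (hSH _ P v n ι hP hv hs hn hι j).1 Ψ'
      refine ⟨Φ', fun l => ?_⟩
      refine Fin.cases ?_ (fun m => ?_) l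
      · rw [hv0, ← h0]
        rfl
      · have e1 : Fin.castLE h m.succ = (Fin.castLE (by omega : i ≤ j) m).succ := rfl
        rw [e1]
        have e2 : fig v n ι (Φ'.face (Fin.castLE (by omega : i ≤ j) m).succ) =
            fig v n ι (Φ.face m.succ) := by
          rw [hΦ', hΨ', hΨ]
        have m1 : v ∈ Φ'.face (Fin.castLE (by omega : i ≤ j) m).succ := by
          have h1 : Φ'.face 0 ⊆ Φ'.face (Fin.castLE (by omega : i ≤ j) m).succ :=
            Φ'.mono (Fin.zero_le _)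
          exact h1 (by rw [h0]; exact mem_singleton v)
        have m2 : v ∈ Φ.face m.succ := by
          have h1 : Φ.face 0 ⊆ Φ.face m.succ := Φ.mono (Fin.zero_le _)
          exact h1 (by rw [hv0]; exact mem_singleton v)
        exact Subset.antisymm (hV4 _ _ (Φ'.isFace _) (Φ.isFace _) m1 m2 e2.subset)
          (hV4 _ _ (Φ.isFace _) (Φ'.isFace _) m2 m1 e2.symm.subset)

theorem ptm : S_FACES → S_VF → S_INV → S_IOTA → S_SH → S_EXT → PTM := by
  intro hF hV hN hI hSH hE d P H i j hP hij hj hPT Φ Ψ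
  obtain ⟨Φ', hΦ⟩ := chext hF hV hN hI hSH hE i d P j hP hij hj Φ
  obtain ⟨Ψ', hΨ⟩ := chext hF hV hN hI hSH hE i d P j hP hij hj Ψ
  obtain ⟨h, hh, he⟩ := hPT Φ' Ψ'
  exact ⟨h, hh, fun l => by rw [← hΦ, ← hΨ]; exact he _⟩

end Pool.Agent.T9h95.NK
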