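import Pool.Agent.T9h98.NK.SpecS
import Pool.Agent.T9h48.NK.TrCore

/-!
# Project NK, LOCS and LOCX (helper95): common part
-/

set_option autoImplicit false

open Set
open scoped RealInnerProductSpace

namespace Pool.Agent.T9h95.NK

open Pool.Agent.T9h98.DC Pool.Agent.T9h44.NK Pool.Agent.T9h98.NK

variable {d : ℕ}

theorem ip (v n : E (d + 1)) (ι : E d →ₗᵢ[ℝ] E (d + 1)) (hO : Ort n ι) {y y' : E (d + 1)}
    {x x' : E d} {t t' : ℝ} (h : y - v = t • (n + ι x)) (h' : y' - v = t' • (n + ι x')) :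
    ⟪y - v, y' - v⟫ = t * t' * (‖n‖ ^ 2 + ⟪x, x'⟫) := by
  have h1 : ⟪ι x, n⟫ = 0 := by rw [real_inner_comm]; exact hO x
  rw [h, h', inner_smul_left, inner_smul_right, inner_add_left, inner_add_right, inner_add_right,
    hO x', h1, ι.inner_map_map, real_inner_self_eq_norm_sq]
  simp only [conj_trivial]
  ring

/-- the stabilizer moves a neighbour to a neighbour -/
theorem trn (hNB : S_NB) {P : Set (E (d + 1))} {H : Subgroup (E (d + 1) ≃ₗᵢ[ℝ] E (d + 1))}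
    {v n : E (d + 1)} {ι : E d →ₗᵢ[ℝ] E (d + 1)} (hP : IsPolytope P) (hPr : Pres H P)
    (hv : Vx P v) (hS : Sup P v n) (hn : n ≠ 0) (hO : Ort n ι) (hst : ∀ h ∈ H, h v = v → h n = n)
    (htr : ∀ x x', Vx (fig v n ι P) x → Vx (fig v n ι P) x' → ∃ k ∈ figH H v ι, k x = x') :
    ∀ y y', Adj P v y → Adj P v y' → ∃ h ∈ H, h v = v ∧ h y = y' := by
  obtain ⟨n1, -, n3, -⟩ := hNB d P v n ι hP hv hS hn hO
  intro y y' hy hy'
  obtain ⟨x, hx, t, ht, hxt⟩ := n1 y hy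
  obtain ⟨x', hx', ht'⟩ := n1 y' hy'
  obtain ⟨k, ⟨h, hh, hhv, hk⟩, hkx⟩ := htr x x' hx hx'
  refine ⟨h, hh, hhv, ?_⟩
  have e1 : h y - v = t • (n + ι x') := by
    have : h y - v = h (y - v) := by rw [map_sub, hhv]
    rw [this, hxt, map_smul, map_add, hst h hh hhv, ← hk, hkx]
  have e2 : Adj P v (h y) := by
    refine ⟨fun e => hy.1 (h.injective (by rw [hhv]; exact e)), ?_⟩
    have := Pool.Agent.T9h48.NK.face_image h (hPr h hh) hy.2
    have e3 : h '' segment ℝ v y = segment ℝ (h v) (h y) :=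
      image_segment ℝ h.toLinearEquiv.toLinearMap.toAffineMap v y
    rw [e3, hhv] at this
    exact this
  exact (n3 (h y) y' x' x' e2 hy' ⟨t, ht, e1⟩ ht').1 rfl

/-- the common part: equal lengths, equal factors -/
theorem core (hNB : S_NB) {P : Set (E (d + 1))} {H : Subgroup (E (d + 1) ≃ₗᵢ[ℝ] E (d + 1))}
    {v n : E (d + 1)} {ι : E d →ₗᵢ[ℝ] E (d + 1)} (hP : IsPolytope P) (hPr : Pres H P)
    (hv : Vx P v) (hS : Sup P v n) (hn : n ≠ 0) (hO : Ort n ι) (hst : ∀ h ∈ H, h v = v → h n = n)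
    (htr : ∀ x x', Vx (fig v n ι P) x → Vx (fig v n ι P) x' → ∃ k ∈ figH H v ι, k x = x')
    (ρ : ℝ) (hρ : 0 < ρ) (hne : ∃ x, Vx (fig v n ι P) x)
    (hxx : ∀ x, Vx (fig v n ι P) x → ⟪x, x⟫ = ρ) :
    ∃ t : ℝ, 0 < t ∧ (∀ y, Adj P v y → ∃ x, Vx (fig v n ι P) x ∧ y - v = t • (n + ι x)) ∧
      (∀ x, Vx (fig v n ι P) x → Adj P v (v + t • (n + ι x))) := by
  obtain ⟨n1, n2, n3, -⟩ := hNB d P v n ι hP hv hS hn hO
  have htr' := trn hNB hP hPr hv hS hn hO hst htr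
  obtain ⟨x₀, hx₀⟩ := hne
  obtain ⟨y₀, hy₀, t₀, ht₀, hxt₀⟩ := n2 x₀ hx₀
  have hpos : 0 < ‖n‖ ^ 2 + ρ := by positivity
  have key : ∀ y x t, Adj P v y → Vx (fig v n ι P) x → 0 < t → y - v = t • (n + ι x) → t = t₀ := by
    intro y x t hy hx ht hxt
    obtain ⟨h, -, hhv, hhy⟩ := htr' y y₀ hy hy₀
    have e1 : ⟪y - v, y - v⟫ = ⟪y₀ - v, y₀ - v⟫ := by
      have : y₀ - v = h (y - v) := by rw [map_sub, hhv, hhy]
      rw [this, h.inner_map_map]
    rw [ip v n ι hO hxt hxt, ip v n ι hO hxt₀ hxt₀, hxx x hx, hxx x₀ hx₀] at e1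
    have e2 : t * t = t₀ * t₀ := mul_right_cancel₀ hpos.ne' e1
    nlinarith
  refine ⟨t₀, ht₀, fun y hy => ?_, fun x hx => ?_⟩
  · obtain ⟨x, hx, t, ht, hxt⟩ := n1 y hy
    exact ⟨x, hx, by rw [hxt, key y x t hy hx ht hxt]⟩
  · obtain ⟨y, hy, t, ht, hxt⟩ := n2 x hx
    have : v + t₀ • (n + ι x) = y := by
      rw [← key y x t hy hx ht hxt, ← hxt]; abel
    rw [this]; exact hy

theorem inj {v n : E (d + 1)} {ι : E d →ₗᵢ[ℝ] E (d + 1)} {t : ℝ} (ht : 0 < t) :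
    Function.Injective fun x : E d => v + t • (n + ι x) := by
  intro x x' h
  have h1 : v + t • (n + ι x) = v + t • (n + ι x') := h
  have h2 := add_left_cancel h1
  have h3 := smul_right_injective _ ht.ne' h2
  exact ι.injective (add_left_cancel h3)

theorem num {P : Set (E (d + 1))} {v n : E (d + 1)} {ι : E d →ₗᵢ[ℝ] E (d + 1)} {t : ℝ} (ht : 0 < t)
    (h1 : ∀ y, Adj P v y → ∃ x, Vx (fig v n ι P) x ∧ y - v = t • (n + ι x))
    (h2 : ∀ x, Vx (fig v n ι P) x → Adj P v (v + t • (n + ι x))) :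
    {y | Adj P v y}.ncard = {x | Vx (fig v n ι P) x}.ncard := by
  have : {y | Adj P v y} = (fun x : E d => v + t • (n + ι x)) '' {x | Vx (fig v n ι P) x} := by
    ext y
    constructor
    · intro hy
      obtain ⟨x, hx, hxt⟩ := h1 y hy
      exact ⟨x, hx, by simp only; rw [← hxt]; abel⟩
    · rintro ⟨x, hx, rfl⟩
      exact h2 x hx
  rw [this, ncard_image_of_injective _ (inj ht)]

end Pool.Agent.T9h95.NK
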