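import Pool.Agent.T9h95.NK.Ll2

/-!
# Project NK, version 2, pieces (LL3), (LL4): general form
-/

set_option autoImplicit false

open Set
open scoped RealInnerProductSpace

namespace Pool.Agent.T9h95.NK

open Pool.Agent.T9h98.DC
open Pool.Agent.T9h44.NK

/-- the general form: no inscribed polytope with `EC c`, `0 < c < 1/2` and `PT (J + 2)` in dimension `> N` -/
theorem llg : S_FACES → S_IOTA → S_TR → S_VF → S_M1 → S_ECP → S_L1 → S_L2 → S_STEPL →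
    S_SCL → S_EXT → PTM → ∀ (J N : ℕ), 3 ≤ N → J < N →
    (∀ (n : ℕ), N ≤ n → ∀ (P : Set (E (n + 1)))
      (H : Subgroup (E (n + 1) ≃ₗᵢ[ℝ] E (n + 1))) (c : ℝ), IsPolytope P → Pres H P → UV P → EC c P →
        0 < c → c < 1 / 2 → PT (J + 2) H P → False) →
    ∀ (n : ℕ), N + 1 ≤ n → ∀ (P : Set (E (n + 1)))
      (H : Subgroup (E (n + 1) ≃ₗᵢ[ℝ] E (n + 1))), IsPolytope P → Pres H P → PT (J + 3) H P →
        Reg P := by
  intro hF hI hT hV hM1 hEC hL1 hL2 hST hSC hE hmono J N hN hJN hQ n hn P H hP hH hPT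
  obtain ⟨m, rfl⟩ : ∃ m, n = m + 1 := ⟨n - 1, by omega⟩
  have hne : P.Nonempty := hP.2.mono interior_subset
  obtain ⟨hPP, v₀, hv₀⟩ := (hF _ P hP.1).2.2.2.2.1 hne
  have hPT1 : PT 1 H P := hmono _ P H 1 (J + 3) hP (by omega) (by omega) hPT
  have hnorm : ∀ v, Vx P v → ‖v‖ = ‖v₀‖ := by
    intro v hv
    obtain ⟨h, -, he⟩ := vtrans hE hP hPT1 hv₀ hv
    rw [← he, h.norm_map]
  obtain ⟨ρ, hρ⟩ : ∃ ρ, ρ = ‖v₀‖ := ⟨_, rfl⟩
  rw [← hρ] at hnorm
  have hρ0 : 0 < ρ := by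
    rcases (norm_nonneg v₀).eq_or_lt with h | h
    · exfalso
      have h1 := ((hF _ P hP.1).1 P hPP).2
      have h2 : {v | Vx P v ∧ v ∈ P} ⊆ {(0 : E (m + 1 + 1))} := by
        rintro v ⟨hv, -⟩
        have := hnorm v hv
        rw [hρ, ← h] at this
        exact norm_eq_zero.1 this
      have h3 : P ⊆ {(0 : E (m + 1 + 1))} := by
        rw [h1]
        exact (convexHull_min h2 (convex_singleton _))
      obtain ⟨x, hx⟩ := hP.2
      have h4 := interior_mono h3 hx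
      rw [interior_singleton] at h4
      exact h4
    · rw [hρ]
      exact h
  obtain ⟨P', hP'⟩ : ∃ P' : Set (E (m + 1 + 1)), P' = (fun x => ρ⁻¹ • x) '' P := ⟨_, rfl⟩
  obtain ⟨q1, q2, q3, q4, q5⟩ := hSC _ P H ρ⁻¹ (inv_pos.2 hρ0) hP hH P' hP'
  refine q5 ?_
  have hUV : UV P' := by
    intro v hv
    have h1 := hnorm _ (q3 v hv)
    rw [inv_inv, norm_smul, Real.norm_of_nonneg hρ0.le] at h1
    have h2 : ρ * (‖v‖ - 1) = 0 := by rw [mul_sub, h1]; ring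
    rcases mul_eq_zero.1 h2 with h3 | h3
    · exact absurd h3 hρ0.ne'
    · linarith
  have hPT9 := q4 (J + 3) hPT
  have hPT2 : PT 2 H P' := hmono _ P' H 2 (J + 3) q1 (by omega) (by omega) hPT9
  have hPT3 : PT 3 H P' := hmono _ P' H 3 (J + 3) q1 (by omega) (by omega) hPT9
  obtain ⟨c, hc1, hc⟩ := hEC _ P' H q1 q2 hUV hPT2
  rcases lt_trichotomy c 0 with h0 | h0 | h0
  · exact Or.inl (hL1 _ P' c q1 hUV hc h0).1
  · rw [h0] at hc
    exact Or.inr (Or.inl (hL2 _ P' H q1 q2 hUV hc hPT2))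
  · rcases hST (m + 1) (by omega) P' H c q1 q2 hUV hc h0 hc1 hPT3 with (h2 | h2) | h2
    · exact Or.inl h2
    · exact Or.inr (Or.inr h2)
    · exfalso
      have hne' : P'.Nonempty := q1.2.mono interior_subset
      obtain ⟨-, v, hv⟩ := (hF _ P' q1.1).2.2.2.2.1 hne'
      have hvn : v ≠ 0 := by
        intro h
        have := hUV v hv
        rw [h, norm_zero] at this
        norm_num at this
      obtain ⟨ι, hι, -⟩ := hI _ v hvn
      obtain ⟨l, hl, hs, ho, hn0, huv, -⟩ := hM1 _ P' v ι c q1 hUV hc (by linarith) hc1 hv hι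
      have hec := h2 v ι l hv hι hl huv
      have hfix : ∀ h ∈ H, h v = v → h (-l • v) = -l • v := by
        intro h _ he
        rw [map_smul, he]
      obtain ⟨t1, t2, -, -, -⟩ := hT _ P' H v (-l • v) ι q1 q2 hv hs hn0 ho hfix
      have hpoly := (hV _ P' v (-l • v) ι q1 hv hs hn0 ho).1
      have hlt : c / (1 + c) < 1 / 2 := by
        rw [div_lt_div_iff₀ (by linarith) (by norm_num)]
        linarith
      exact hQ m (by omega) _ _ (c / (1 + c)) hpoly t1 huv hec (by positivity) hlt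
        (t2 (J + 2) hPT9)

/-- (QJ3) of helper40's version -/
def QJ3 : Prop := ∀ (j : ℕ), j ≤ 4 → ∀ (n : ℕ), 4 + j ≤ n → ∀ (P : Set (E (n + 1)))
    (H : Subgroup (E (n + 1) ≃ₗᵢ[ℝ] E (n + 1))) (c : ℝ),
  IsPolytope P → Pres H P → UV P → EC c P → 0 < c → c < 1 / (6 - j) → PT (j + 2) H P → False

/-- (QJ4) of helper40's version -/
def QJ4 : Prop := ∀ (j : ℕ), j ≤ 3 → ∀ (n : ℕ), 16 + j ≤ n → ∀ (P : Set (E (n + 1)))
    (H : Subgroup (E (n + 1) ≃ₗᵢ[ℝ] E (n + 1))) (c : ℝ),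
  IsPolytope P → Pres H P → UV P → EC c P → 0 < c → c < 1 / (5 - j) → PT (j + 2) H P → False

/-- (LL3): `PT 7` in dimension `≥ 10` -/
def LL3 : Prop := ∀ (n : ℕ), 9 ≤ n → ∀ (P : Set (E (n + 1)))
    (H : Subgroup (E (n + 1) ≃ₗᵢ[ℝ] E (n + 1))),
  IsPolytope P → Pres H P → PT 7 H P → Reg P

/-- (LL4): `PT 6` in dimension `≥ 21` -/
def LL4 : Prop := ∀ (n : ℕ), 20 ≤ n → ∀ (P : Set (E (n + 1)))
    (H : Subgroup (E (n + 1) ≃ₗᵢ[ℝ] E (n + 1))),
  IsPolytope P → Pres H P → PT 6 H P → Reg P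

theorem ll3 : S_FACES → S_IOTA → S_TR → S_VF → S_M1 → S_ECP → S_L1 → S_L2 → S_STEPL → QJ3 →
    S_SCL → S_EXT → PTM → LL3 := by
  intro hF hI hT hV hM1 hEC hL1 hL2 hST hQJ hSC hE hmono
  exact llg hF hI hT hV hM1 hEC hL1 hL2 hST hSC hE hmono 4 8 (by norm_num) (by norm_num)
    (fun n hn P H c a1 a2 a3 a4 a5 a6 a7 => hQJ 4 le_rfl n (by omega) P H c a1 a2 a3 a4 a5
      (by norm_num; linarith) a7)

theorem ll4 : S_FACES → S_IOTA → S_TR → S_VF → S_M1 → S_ECP → S_L1 → S_L2 → S_STEPL → QJ4 →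
    S_SCL → S_EXT → PTM → LL4 := by
  intro hF hI hT hV hM1 hEC hL1 hL2 hST hQJ hSC hE hmono
  exact llg hF hI hT hV hM1 hEC hL1 hL2 hST hSC hE hmono 3 19 (by norm_num) (by norm_num)
    (fun n hn P H c a1 a2 a3 a4 a5 a6 a7 => hQJ 3 le_rfl n (by omega) P H c a1 a2 a3 a4 a5
      (by norm_num; linarith) a7)

end Pool.Agent.T9h95.NK
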