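import Pool.Agent.T9h48.NK.Qj5
import Pool.Agent.T9h95.NK.Ll34
import Pool.Agent.T9h95.NK.Ptm

/-!
# Project NK: from a base `c < 1/a`, `PT 2` to `PT (a + 1)`
-/

set_option autoImplicit false

open Set
open scoped RealInnerProductSpace

namespace Pool.Agent.T9h95.NK

open Pool.Agent.T9h98.DC
open Pool.Agent.T9h44.NK Pool.Agent.T9h48.NK

/-- **LLB.** Base `c < 1/a`, `PT 2` impossible for `P` in `E (n + 1)`, `n ≥ n0`: then `PT (a + 1)` and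
`n ≥ n0 + a - 1` give `Reg`. (`a = 3`, `n0 = 8`: `PT 4`, `n ≥ 10`; `a = 4`, `n0 = 15`: `PT 5`, `n ≥ 18`;
`a = 6`, `n0 = 4`: `PT 7`, `n ≥ 9`.) -/
theorem llB (hF : S_FACES) (hVF : S_VF) (hI : S_INV) (hι : S_IOTA) (hSH : S_SH) (hEXT : S_EXT)
    (hTR : S_TR) (hM1 : S_M1) (hRSC : S_RSC) (hSTEPL : S_STEPL) (hEC : S_ECP) (hL1 : S_L1)
    (hL2 : S_L2) (hSC : S_SCL) {a n0 : ℕ} (ha : 2 ≤ a) (hn0 : 4 ≤ n0) (hB : BaseB a n0) :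
    ∀ (n : ℕ), n0 + a ≤ n + 1 → ∀ (P : Set (E (n + 1)))
      (H : Subgroup (E (n + 1) ≃ₗᵢ[ℝ] E (n + 1))), IsPolytope P → Pres H P → PT (a + 1) H P →
        Reg P := by
  obtain ⟨J, rfl⟩ : ∃ J, a = J + 2 := ⟨a - 2, by omega⟩
  intro n hn P H h1 h2 h3
  refine llg hF hι hTR hVF hM1 hEC hL1 hL2 hSTEPL hSC hEXT
    (ptm hF hVF hI hι hSH hEXT) J (n0 + J) (by omega) (by omega) ?_ n (by omega) P H h1 h2 h3
  intro n hn P H c g1 g2 g3 g4 g5 g6 g7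
  refine qjb hF hVF hI hι hSH hEXT hTR hM1 hRSC hSTEPL hn0 hB J le_rfl n hn P H c g1 g2 g3 g4 g5 ?_ g7
  have e : (((J + 2 : ℕ) : ℝ)) - (J : ℝ) = 2 := by push_cast; ring
  rw [e]
  exact g6

/-- `PT 4`, `n ≥ 10` (version 3) from the base `c < 1/3`, `PT 2`, `n ≥ 8` -/
theorem ll_pt4 (hF : S_FACES) (hVF : S_VF) (hI : S_INV) (hι : S_IOTA) (hSH : S_SH) (hEXT : S_EXT)
    (hTR : S_TR) (hM1 : S_M1) (hRSC : S_RSC) (hSTEPL : S_STEPL) (hEC : S_ECP) (hL1 : S_L1)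
    (hL2 : S_L2) (hSC : S_SCL) (hB : ∀ (n : ℕ), 8 ≤ n → ∀ (P : Set (E (n + 1)))
      (H : Subgroup (E (n + 1) ≃ₗᵢ[ℝ] E (n + 1))) (c : ℝ),
      IsPolytope P → Pres H P → UV P → EC c P → 0 < c → c < 1 / 3 → PT 2 H P → False) :
    ∀ (n : ℕ), 10 ≤ n → ∀ (P : Set (E (n + 1)))
      (H : Subgroup (E (n + 1) ≃ₗᵢ[ℝ] E (n + 1))), IsPolytope P → Pres H P → PT 4 H P → Reg P :=
  fun n hn => llB hF hVF hI hι hSH hEXT hTR hM1 hRSC hSTEPL hEC hL1 hL2 hSC (a := 3) (n0 := 8)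
    (by norm_num) (by norm_num)
    (fun n hn P H c g1 g2 g3 g4 g5 g6 g7 => hB n hn P H c g1 g2 g3 g4 g5 (by exact_mod_cast g6) g7)
    n (by omega)

end Pool.Agent.T9h95.NK
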