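import Pool.Agent.T9h44.NK.Spec5
import Pool.Agent.T9h95.NK.Ll34

/-!
# Project NK, slopes 5 and 4, pieces (LL5), (LL4)
-/

set_option autoImplicit false

open Set
open scoped RealInnerProductSpace

namespace Pool.Agent.T9h95.NK

open Pool.Agent.T9h98.DC
open Pool.Agent.T9h44.NK

theorem ll5 : S_FACES → S_IOTA → S_TR → S_VF → S_M1 → S_ECP → S_L1 → S_L2 → S_STEPL → S_QJ5 →
    S_SCL → S_EXT → PTM → S_LL5 := by
  intro hF hI hT hV hM1 hEC hL1 hL2 hST hQJ hSC hE hmono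
  exact llg hF hI hT hV hM1 hEC hL1 hL2 hST hSC hE hmono 2 17 (by norm_num) (by norm_num)
    (fun n hn P H c a1 a2 a3 a4 a5 a6 a7 => hQJ 2 le_rfl n (by omega) P H c a1 a2 a3 a4 a5
      (by norm_num; linarith) a7)

theorem ll4' : S_FACES → S_IOTA → S_TR → S_VF → S_M1 → S_ECP → S_L1 → S_L2 → S_STEPL → S_QJ4 →
    S_SCL → S_EXT → PTM → S_LL4 := by
  intro hF hI hT hV hM1 hEC hL1 hL2 hST hQJ hSC hE hmono
  exact llg hF hI hT hV hM1 hEC hL1 hL2 hST hSC hE hmono 1 303 (by norm_num) (by norm_num)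
    (fun n hn P H c a1 a2 a3 a4 a5 a6 a7 => hQJ 1 le_rfl n (by omega) P H c a1 a2 a3 a4 a5
      (by norm_num; linarith) a7)

/-- (LL7) from `QJ3` -/
theorem ll7 : S_FACES → S_IOTA → S_TR → S_VF → S_M1 → S_ECP → S_L1 → S_L2 → S_STEPL → QJ3 →
    S_SCL → S_EXT → PTM → S_LL7 := ll3

end Pool.Agent.T9h95.NK
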