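import Pool.Agent.T9h95.NK.Loc0

/-!
# Project NK, piece (LOCS) (helper95)
-/

set_option autoImplicit false

open Set
open scoped RealInnerProductSpace

namespace Pool.Agent.T9h95.NK

open Pool.Agent.T9h98.DC Pool.Agent.T9h44.NK Pool.Agent.T9h98.NK

theorem locS : S_NB → S_CENS → S_G1 → S_LOCS := by
  intro hNB hC hG D P H v n ι hD hP hPr hv hH hR
  obtain ⟨hS, hn, hO, hst, hgood⟩ := hH
  obtain ⟨u, s, hs, hds, hfig⟩ := hR
  obtain ⟨c1, htr⟩ := hC D P H v n ι hD hP hPr hv ⟨hS, hn, hO, hst, hgood⟩ u s hs hds hfig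
  obtain ⟨g1, ginj, g3, g4⟩ := hG D (fig v n ι P) u s (by omega) hs hds hfig
  obtain ⟨ρ, hρ, hii, hij⟩ := g4 c1
  have htr' := trn hNB hP hPr hv hS hn hO hst htr
  have hxx : ∀ x, Vx (fig v n ι P) x → ⟪x, x⟫ = ρ := fun x hx => by
    obtain ⟨i, rfl⟩ := (g1 x).1 hx
    exact hii i
  obtain ⟨t, ht, k1, k2⟩ := core hNB hP hPr hv hS hn hO hst htr ρ hρ
    ⟨u 0, (g1 _).2 ⟨0, rfl⟩⟩ hxx
  obtain ⟨-, -, n3, n4⟩ := hNB D P v n ι hP hv hS hn hO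
  have hn2 : 0 < ‖n‖ ^ 2 := by positivity
  have hpos : 0 < ‖n‖ ^ 2 + ρ := by positivity
  have hD0 : (0 : ℝ) < D := by exact_mod_cast (by omega : 0 < D)
  refine ⟨⟨(‖n‖ ^ 2 - ρ / D) / (‖n‖ ^ 2 + ρ), t * √(‖n‖ ^ 2 + ρ), ?_⟩, fun w w' hw hw' => ?_⟩
  · have he2 : (t * √(‖n‖ ^ 2 + ρ)) ^ 2 = t * t * (‖n‖ ^ 2 + ρ) := by
      rw [mul_pow, Real.sq_sqrt hpos.le]; ring
    refine ⟨by positivity, ?_, ?_, fun y hy => ?_, fun y y' hy hy' hne => ?_, ?_⟩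
    · rw [div_lt_one hpos]
      have : 0 < ρ / D := by positivity
      linarith
    · rw [div_lt_div_iff₀ hD0 hpos]
      have : ρ / D * D = ρ := div_mul_cancel₀ _ hD0.ne'
      nlinarith
    · obtain ⟨x, hx, hxt⟩ := k1 y hy
      have h1 := ip v n ι hO hxt hxt
      rw [hxx x hx, real_inner_self_eq_norm_sq, ← he2] at h1
      exact (pow_left_inj₀ (norm_nonneg _) (by positivity) two_ne_zero).1 h1
    · obtain ⟨x, hx, hxt⟩ := k1 y hy
      obtain ⟨x', hx', hxt'⟩ := k1 y' hy'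
      have hxne : x ≠ x' := fun e => hne ((n3 y y' x x' hy hy' ⟨t, ht, hxt⟩ ⟨t, ht, hxt'⟩).1 e)
      obtain ⟨i, rfl⟩ := (g1 x).1 hx
      obtain ⟨j, rfl⟩ := (g1 x').1 hx'
      have hijne : i ≠ j := fun e => hxne (by rw [e])
      refine ⟨⟨hy, hy', hne, ?_⟩, ?_⟩
      · exact ((n4 y y' _ _ hy hy' ⟨t, ht, hxt⟩ ⟨t, ht, hxt'⟩).1 (g3 i j hijne)).2
      · rw [ip v n ι hO hxt hxt', hij i j hijne, he2]
        field_simp
        ring
    · rw [num ht k1 k2]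
      have : {x | Vx (fig v n ι P) x} = range u := by
        ext x; exact g1 x
      rw [this, ← image_univ, ncard_image_of_injective _ ginj, ncard_univ, Nat.card_fin]
  · obtain ⟨h, hh, -, e⟩ := htr' w w' hw hw'
    exact ⟨h, hh, e⟩

end Pool.Agent.T9h95.NK
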