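import Pool.Agent.T9h95.NK.Loc0

/-!
# Project NK, piece (LOCX) (helper95)
-/

set_option autoImplicit false

open Set
open scoped RealInnerProductSpace

namespace Pool.Agent.T9h95.NK

open Pool.Agent.T9h98.DC Pool.Agent.T9h44.NK Pool.Agent.T9h98.NK

theorem bip {D : ℕ} (b : OrthonormalBasis (Fin D) ℝ (E D)) (i j : Fin D) :
    ⟪b i, b j⟫ = if i = j then (1 : ℝ) else 0 := by
  have := orthonormal_iff_ite.1 b.orthonormal i j
  exact this

/-- the vertices of the cross-polytope -/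
noncomputable def xv {D : ℕ} (r : ℝ) (b : OrthonormalBasis (Fin D) ℝ (E D)) (p : Fin D × Bool) : E D :=
  (if p.2 then r else -r) • b p.1

theorem xv_inner {D : ℕ} (r : ℝ) (b : OrthonormalBasis (Fin D) ℝ (E D)) (p q : Fin D × Bool) :
    ⟪xv r b p, xv r b q⟫ = if p.1 = q.1 then (if p.2 = q.2 then r ^ 2 else - r ^ 2) else 0 := by
  obtain ⟨i, a⟩ := p
  obtain ⟨j, c⟩ := q
  simp only [xv, inner_smul_left, inner_smul_right, bip, conj_trivial]
  by_cases h : i = j <;> cases a <;> cases c <;> simp [h] <;> ring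

theorem xv_neg {D : ℕ} (r : ℝ) (b : OrthonormalBasis (Fin D) ℝ (E D)) (i : Fin D) (a : Bool) :
    xv r b (i, !a) = - xv r b (i, a) := by
  cases a <;> simp [xv]

theorem xv_inj {D : ℕ} (r : ℝ) (hr : 0 < r) (b : OrthonormalBasis (Fin D) ℝ (E D)) :
    Function.Injective (xv r b) := by
  intro p q h
  have h1 := xv_inner r b p q
  rw [← h, xv_inner] at h1
  simp only [if_true] at h1
  obtain ⟨i, a⟩ := p
  obtain ⟨j, c⟩ := q
  simp only at h1
  have hr2 : 0 < r ^ 2 := by positivity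
  by_cases e : i = j
  · subst e
    by_cases e' : a = c
    · rw [e']
    · rw [if_pos rfl, if_neg e'] at h1
      linarith
  · rw [if_neg e] at h1
    linarith

theorem locX : S_NB → S_CENX → S_G2 → S_LOCX := by
  intro hNB hC hG D P H v n ι hD hP hPr hv hH hR
  obtain ⟨hS, hn, hO, hst, hgood⟩ := hH
  obtain ⟨c, r, b, hr, hfig⟩ := hR
  obtain ⟨c1, htr⟩ := hC D P H v n ι hD hP hPr hv ⟨hS, hn, hO, hst, hgood⟩ c r b hr hfig
  obtain ⟨g1, g2⟩ := hG D (fig v n ι P) c r b hr hfig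
  have htr' := trn hNB hP hPr hv hS hn hO hst htr
  subst c1
  have g1' : ∀ x, Vx (fig v n ι P) x ↔ ∃ p, xv r b p = x := by
    intro x
    rw [g1]
    constructor
    · rintro ⟨i, h | h⟩
      · exact ⟨(i, true), by simp [xv, h]⟩
      · exact ⟨(i, false), by simp [xv, h]⟩
    · rintro ⟨⟨i, a⟩, rfl⟩
      cases a
      · exact ⟨i, Or.inr (by simp [xv])⟩
      · exact ⟨i, Or.inl (by simp [xv])⟩
  have hr2 : 0 < r ^ 2 := by positivity
  have hxx : ∀ x, Vx (fig v n ι P) x → ⟪x, x⟫ = r ^ 2 := fun x hx => by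
    obtain ⟨p, rfl⟩ := (g1' x).1 hx
    rw [xv_inner]; simp
  have hD1 : 0 < D := by omega
  obtain ⟨t, ht, k1, k2⟩ := core hNB hP hPr hv hS hn hO hst htr (r ^ 2) hr2
    ⟨xv r b (⟨0, hD1⟩, true), (g1' _).2 ⟨_, rfl⟩⟩ hxx
  obtain ⟨-, -, n3, n4⟩ := hNB D P v n ι hP hv hS hn hO
  have hn2 : 0 < ‖n‖ ^ 2 := by positivity
  have hpos : 0 < ‖n‖ ^ 2 + r ^ 2 := by positivity
  refine ⟨⟨‖n‖ ^ 2 / (‖n‖ ^ 2 + r ^ 2), t * √(‖n‖ ^ 2 + r ^ 2), ?_⟩, fun w w' hw hw' => ?_⟩
  · have he2 : (t * √(‖n‖ ^ 2 + r ^ 2)) ^ 2 = t * t * (‖n‖ ^ 2 + r ^ 2) := by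
      rw [mul_pow, Real.sq_sqrt hpos.le]; ring
    refine ⟨by positivity, ?_, by positivity, fun y hy => ?_, ⟨(2 * t) • n, fun y hy => ?_⟩, ?_⟩
    · rw [div_lt_one hpos]
      linarith
    · obtain ⟨x, hx, hxt⟩ := k1 y hy
      have h1 := ip v n ι hO hxt hxt
      rw [hxx x hx, real_inner_self_eq_norm_sq, ← he2] at h1
      exact (pow_left_inj₀ (norm_nonneg _) (by positivity) two_ne_zero).1 h1
    · obtain ⟨x, hx, hxt⟩ := k1 y hy
      obtain ⟨⟨i, a⟩, rfl⟩ := (g1' x).1 hx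
      have hx' : Vx (fig v n ι P) (xv r b (i, !a)) := (g1' _).2 ⟨_, rfl⟩
      have e1 : (2 * t) • n - (y - v) = t • (n + ι (xv r b (i, !a))) := by
        rw [hxt, xv_neg, map_neg, two_mul, add_smul, smul_add, smul_add, smul_neg]
        abel
      have e2 : v + (2 * t) • n - (y - v) = v + t • (n + ι (xv r b (i, !a))) := by
        rw [← e1]; abel
      have e3 : v + (2 * t) • n - (y - v) - v = t • (n + ι (xv r b (i, !a))) := by
        rw [e2]; abel
      have hadj : Adj P v (v + (2 * t) • n - (y - v)) := by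
        rw [e2]; exact k2 _ hx'
      have hne0 : xv r b (i, a) ≠ xv r b (i, !a) := fun e => by
        have := xv_inj r hr b e
        simp at this
      refine ⟨hadj, fun e => ?_, ?_, ?_, fun y' hy' hne1 hne2 => ?_⟩
      · exact hne0 (((n3 _ _ _ _ hadj hy ⟨t, ht, e3⟩ ⟨t, ht, hxt⟩).2 e).symm)
      · have e4 : (2 * t) • n - (y - v) = v + (2 * t) • n - (y - v) - v := by abel
        rw [e4, ip v n ι hO hxt e3, xv_inner, he2]
        have : a ≠ !a := by cases a <;> simp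
        simp only [if_true, if_neg this]
        field_simp
        ring
      · rintro ⟨-, -, -, hT⟩
        have h5 := (n4 y _ _ _ hy hadj ⟨t, ht, hxt⟩ ⟨t, ht, e3⟩).2
          ⟨fun e => hne0 ((n3 _ _ _ _ hy hadj ⟨t, ht, hxt⟩ ⟨t, ht, e3⟩).2 e), hT⟩
        have h6 := (g2 _ _ hx hx').1 h5
        rcases h6.2 with h7 | h7
        · exact h7 (by rw [xv_neg]; simp)
        · omega
      · obtain ⟨x', hx'', hxt'⟩ := k1 y' hy'
        obtain ⟨⟨j, a'⟩, rfl⟩ := (g1' x').1 hx''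
        have hxne1 : xv r b (j, a') ≠ xv r b (i, a) := fun e =>
          hne1 ((n3 _ _ _ _ hy' hy ⟨t, ht, hxt'⟩ ⟨t, ht, hxt⟩).1 e)
        have hxne2 : xv r b (j, a') ≠ xv r b (i, !a) := fun e =>
          hne2 ((n3 _ _ _ _ hy' hadj ⟨t, ht, hxt'⟩ ⟨t, ht, e3⟩).1 e)
        have hij : i ≠ j := by
          rintro rfl
          by_cases e : a' = a
          · exact hxne1 (by rw [e])
          · exact hxne2 (by
              have : a' = !a := by cases a <;> cases a' <;> simp_all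
              rw [this])
        refine ⟨⟨hy, hy', fun e => hne1 e.symm, ?_⟩, ?_⟩
        · have h6 := (g2 _ _ hx hx'').2 ⟨hxne1.symm, Or.inl fun e => hxne2 (by
            rw [sub_zero, sub_zero] at e
            rw [xv_neg]; exact e)⟩
          exact ((n4 y y' _ _ hy hy' ⟨t, ht, hxt⟩ ⟨t, ht, hxt'⟩).1 h6).2
        · rw [ip v n ι hO hxt hxt', xv_inner, he2]
          simp only [if_neg hij]
          field_simp
          ring
    · rw [num ht k1 k2]
      have : {x | Vx (fig v n ι P) x} = range (xv r b) := by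
        ext x; exact g1' x
      rw [this, ← image_univ, ncard_image_of_injective _ (xv_inj r hr b), ncard_univ,
        Nat.card_prod, Nat.card_fin, Nat.card_eq_fintype_card, Fintype.card_bool, mul_comm]
  · obtain ⟨h, hh, -, e⟩ := htr' w w' hw hw'
    exact ⟨h, hh, e⟩

end Pool.Agent.T9h95.NK
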